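import Pool.Agent.Helper77.SP.A10a

/-!
# (A10b) the number of set names over a set
-/

open Cardinal Set
open scoped Pointwise

namespace Pool.Agent.Helper46.SP

namespace A10b

variable {Q : Par}

theorem part1 (S : CodeSys Q) (hc : ST_count0) (Z : Set (Idx Q)) (hZ : #Z ≤ Q.K) :
    #{A : S.U // SN (S.lev A) A ∧ UOver A Z} ≤ Q.K := by
  rcases isEmpty_or_nonempty Q.Lev with hE | ⟨⟨ξ⟩⟩
  · have : IsEmpty {A : S.U // SN (S.lev A) A ∧ UOver A Z} := ⟨fun A => hE.elim (S.lev A.1)⟩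
    rw [mk_eq_zero]
    exact zero_le
  have h0 : ℵ₀ ≤ Q.K := (A10a.al0 ξ).trans (Q.κ_le_K ξ)
  refine le_trans (mk_le_of_injective (f := fun A : {A : S.U // SN (S.lev A) A ∧ UOver A Z} =>
    (⟨A.1, trivial, A.2.1, A.2.2⟩ : {B : S.U | True ∧ SN (S.lev B) B ∧ UOver B Z})) ?_)
    (A10a.cardU S (fun _ => True) Q.K h0 ((Q.card_lev ξ).trans (Q.κ_le_K ξ))
      (fun η _ => Q.K_pow η) (fun η _ z hz => ?_) Z hZ)
  · intro A B h
    exact Subtype.ext (congrArg (fun x => x.1) h)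
  · obtain ⟨ν, hν⟩ := Q.lev_bdd {η} (Set.countable_singleton η)
    exact (hc Q S η z hz).trans ((Q.κ_beth η ν (hν η rfl)).trans (Q.κ_le_K ν))

theorem part2 (S : CodeSys Q) (hc : ST_count0) (Z : Set (Idx Q)) (ζ : Q.Lev) (hZ : #Z ≤ Q.κ ζ) :
    #{A : S.U // SN (S.lev A) A ∧ S.lev A < ζ ∧ UOver A Z} ≤ Q.κ ζ := by
  refine le_trans (mk_le_of_injective (f := fun A : {A : S.U // SN (S.lev A) A ∧ S.lev A < ζ ∧
    UOver A Z} => (⟨A.1, A.2.2.1, A.2.1, A.2.2.2⟩ : {B : S.U | S.lev B < ζ ∧ SN (S.lev B) B ∧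
      UOver B Z})) ?_)
    (A10a.cardU S (fun η => η < ζ) (Q.κ ζ) (A10a.al0 ζ) (Q.card_lev ζ)
      (fun η hη => Q.κ_pow η ζ hη) (fun η hη z hz => ?_) Z hZ)
  · intro A B h
    exact Subtype.ext (congrArg (fun x => x.1) h)
  · exact (hc Q S η z hz).trans (Q.κ_beth η ζ hη)

theorem part3 (S : CodeSys Q) (hc : ST_count0) (hO : OFacts S) (Z : Set (Idx Q)) (ζ : Q.Lev)
    (d : RC S) (hd : d ∈ (CC ⊤ : Set (RC S))) (hZ : #Z ≤ Q.κ ζ) (hZb : Z ⊆ below (ζ : Stg Q)) :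
    #(rst d Z) ≤ Q.κ ζ := by
  have key : ∀ t : rst d Z, (SN (S.lev t.1.1) t.1.1 ∧ S.lev t.1.1 < ζ ∧ UOver t.1.1 Z) := by
    rintro ⟨t, ht, h1, h2⟩
    have hn := hO.names _ d hd t ht
    have hlev : S.lev t.1 = tlev t := hn.lev
    refine ⟨?_, ?_, h1⟩
    · dsimp only
      rw [hlev]
      exact hn
    · dsimp only
      rw [hlev]
      exact WithTop.coe_lt_coe.1 (hZb h2 (tlev t) rfl)
  refine le_trans (mk_le_of_injective (f := fun t : rst d Z =>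
    ((⟨t.1.1, key t⟩, ⟨lab t.1.2.1, t.2.2.2⟩) :
      {A : S.U // SN (S.lev A) A ∧ S.lev A < ζ ∧ UOver A Z} × Z)) ?_) ?_
  · rintro ⟨⟨A, l, v⟩, ht⟩ ⟨⟨A', l', v'⟩, ht'⟩ h
    have e1 : A = A' := congrArg (fun x => x.1.1) h
    have e2 : lab l = lab l' := congrArg (fun x => x.2.1) h
    have e3 : l = l' := by
      obtain ⟨a, i⟩ := l
      obtain ⟨a', i'⟩ := l'
      simp only [lab, Prod.mk.injEq, Option.some.injEq] at e2
      simp [e2.1, e2.2]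
    subst e1
    subst e3
    have e4 : v = v' := hO.uniq d A l v v' hd ht.1 ht'.1
    subst e4
    rfl
  · rw [← mul_def]
    exact le_of_le_of_eq (mul_le_mul' (part2 S hc Z ζ hZ) hZ) (mul_eq_self (A10a.al0 ζ))

end A10b

/-- (A10b) -/
theorem st_count (hc : ST_count0) (hO : ST_ofacts) : ST_count := by
  intro Q S Z
  exact ⟨A10b.part1 S hc Z, fun ζ hZ => A10b.part2 S hc Z ζ hZ,
    fun ζ d hd hZ hZb => A10b.part3 S hc (hO Q S) Z ζ d hd hZ hZb⟩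

end Pool.Agent.Helper46.SP
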