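import Pool.Agent.Helper46.SP.Spec

/-!
The ccc lemma (module `D1`).
-/

universe u

namespace Pool.Agent.Helper46.SP

theorem exists_run {T : Type u} (r : T → T → Prop) (x : ℕ → T) : ∃ y : ℕ → T, y 0 = x 0 ∧
    ∀ n, (r (y n) (x (n + 1)) ∧ y (n + 1) = x (n + 1)) ∨
      (¬ r (y n) (x (n + 1)) ∧ y (n + 1) = y n) := by
  classical
  refine ⟨fun n => Nat.rec (motive := fun _ => T) (x 0)
    (fun n z => if r z (x (n + 1)) then x (n + 1) else z) n, rfl, fun n => ?_⟩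
  by_cases h : r (Nat.rec (motive := fun _ => T) (x 0)
    (fun n z => if r z (x (n + 1)) then x (n + 1) else z) n) (x (n + 1))
  · exact Or.inl ⟨h, if_pos h⟩
  · exact Or.inr ⟨h, if_neg h⟩

theorem st_ccc : ST_ccc.{u} := by
  intro P₀ C _ _ hccc hcl p c D hop hdense
  classical
  -- partial solutions
  let T : Type u := {x : Set P₀ × C // x.2 ≤ c ∧ (∀ a ∈ x.1, a ≤ p ∧ (a, x.2) ∈ D) ∧
    ∀ a ∈ x.1, ∀ b ∈ x.1, a ≠ b → ¬ ∃ r, r ≤ a ∧ r ≤ b}
  let r : T → T → Prop := fun x y => x = y ∨ (x.1.1 ⊂ y.1.1 ∧ y.1.2 ≤ x.1.2)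
  have rsub : ∀ {x y : T}, r x y → x.1.1 ⊆ y.1.1 ∧ y.1.2 ≤ x.1.2 := by
    rintro x y (rfl | ⟨h1, h2⟩)
    · exact ⟨Set.Subset.refl _, le_refl _⟩
    · exact ⟨h1.subset, h2⟩
  have rtrans : ∀ {x y z : T}, r x y → r y z → r x z := by
    rintro x y z (rfl | ⟨h1, h2⟩) h
    · exact h
    · rcases h with rfl | ⟨h3, h4⟩
      · exact Or.inr ⟨h1, h2⟩
      · exact Or.inr ⟨h1.trans h3, h4.trans h2⟩
  obtain ⟨m, hm⟩ := exists_maximal_of_chains_bounded (r := r) (by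
    intro c0 hc0
    by_cases hmax : ∃ m ∈ c0, ∀ a ∈ c0, r a m
    · obtain ⟨m, -, hm⟩ := hmax
      exact ⟨m, hm⟩
    push Not at hmax
    by_cases hne : c0 = ∅
    · refine ⟨⟨(∅, c), le_refl _, fun a ha => absurd ha (Set.notMem_empty a),
        fun a ha => absurd ha (Set.notMem_empty a)⟩, fun a ha => ?_⟩
      rw [hne] at ha
      exact absurd ha (Set.notMem_empty a)
    have hne' : c0.Nonempty := Set.nonempty_iff_ne_empty.mpr hne
    have htot : ∀ x ∈ c0, ∀ y ∈ c0, r x y ∨ r y x := by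
      intro x hx y hy
      by_cases hxy : x = y
      · exact Or.inl (Or.inl hxy)
      · exact hc0 hx hy hxy
    set U : Set P₀ := ⋃ x ∈ c0, x.1.1 with hU
    have hxU : ∀ x ∈ c0, x.1.1 ⊆ U := fun x hx => Set.subset_biUnion_of_mem (u := fun x : T => x.1.1) hx
    -- a member of the chain containing `U` is a maximum
    have hbig : ∀ x ∈ c0, ¬ U ⊆ x.1.1 := by
      intro x hx hUx
      obtain ⟨w, hw, hwx⟩ := hmax x hx
      rcases htot w hw x hx with h | h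
      · exact hwx h
      · rcases h with rfl | ⟨h1, -⟩
        · exact hwx (Or.inl rfl)
        · exact h1.2 ((hxU w hw).trans hUx)
    have hUanti : ∀ a ∈ U, ∀ b ∈ U, a ≠ b → ¬ ∃ r, r ≤ a ∧ r ≤ b := by
      intro a ha b hb hab
      obtain ⟨x, hx, hax⟩ := Set.mem_iUnion₂.mp ha
      obtain ⟨y, hy, hby⟩ := Set.mem_iUnion₂.mp hb
      rcases htot x hx y hy with h | h
      · exact y.2.2.2 a ((rsub h).1 hax) b hby hab
      · exact x.2.2.2 a hax b ((rsub h).1 hby) hab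
    have hUc : U.Countable := hccc U hUanti
    have hUne : U.Nonempty := by
      by_contra hcon
      rw [Set.not_nonempty_iff_eq_empty] at hcon
      obtain ⟨x, hx⟩ := hne'
      exact hbig x hx (by rw [hcon]; exact Set.empty_subset _)
    obtain ⟨u, hu⟩ := hUc.exists_eq_range hUne
    have hun : ∀ n, ∃ x : T, x ∈ c0 ∧ u n ∈ x.1.1 := by
      intro n
      have : u n ∈ U := by
        rw [hu]
        exact ⟨n, rfl⟩
      obtain ⟨x, hx, h⟩ := Set.mem_iUnion₂.mp this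
      exact ⟨x, hx, h⟩
    choose x hx hux using hun
    obtain ⟨y, hy0, hys⟩ := exists_run r x
    have hyc : ∀ n, y n ∈ c0 := by
      intro n
      induction n with
      | zero => rw [hy0]; exact hx 0
      | succ n ih =>
        rcases hys n with ⟨-, h⟩ | ⟨-, h⟩
        · rw [h]; exact hx _
        · rw [h]; exact ih
    have hyr : ∀ n, r (y n) (y (n + 1)) := by
      intro n
      rcases hys n with ⟨h1, h⟩ | ⟨-, h⟩
      · rw [h]; exact h1
      · rw [h]; exact Or.inl rfl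
    have hyx : ∀ n, r (x n) (y n) := by
      intro n
      cases n with
      | zero => rw [hy0]; exact Or.inl rfl
      | succ n =>
        rcases hys n with ⟨-, h⟩ | ⟨h1, h⟩
        · rw [h]; exact Or.inl rfl
        · rw [h]; exact (htot _ (hyc n) _ (hx (n + 1))).resolve_left h1
    obtain ⟨d0, hd0⟩ := hcl (fun n => (y n).1.2) fun n => (rsub (hyr n)).2
    have hz : ∀ a ∈ U, a ≤ p ∧ (a, d0) ∈ D := by
      intro a ha
      rw [hu] at ha
      obtain ⟨n, rfl⟩ := ha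
      have h1 := (y n).2.2.1 (u n) ((rsub (hyx n)).1 (hux n))
      exact ⟨h1.1, hop _ h1.2 _ ⟨le_refl _, hd0 n⟩⟩
    refine ⟨⟨(U, d0), (hd0 0).trans (y 0).2.1, hz, hUanti⟩, fun w hw => Or.inr ?_⟩
    refine ⟨⟨hxU w hw, hbig w hw⟩, ?_⟩
    by_cases hn : ∃ n, r w (y n)
    · obtain ⟨n, hn⟩ := hn
      exact (hd0 n).trans (rsub hn).2
    · exfalso
      push Not at hn
      refine hbig w hw ?_
      intro a ha
      rw [hu] at ha
      obtain ⟨n, rfl⟩ := ha
      have h1 : r (y n) w := (htot _ (hyc n) _ hw).resolve_right (hn n)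
      exact (rsub h1).1 ((rsub (hyx n)).1 (hux n))) rtrans
  refine ⟨m.1.2, m.2.1, m.1.1, hccc _ m.2.2.2, m.2.2.1, m.2.2.2, fun q hq => ?_⟩
  by_contra hcon
  push Not at hcon
  obtain ⟨⟨q', c'⟩, hle, hD⟩ := hdense (q, m.1.2) ⟨hq, m.2.1⟩
  have hq' : q' ≤ q := hle.1
  have hc' : c' ≤ m.1.2 := hle.2
  have hqm : ∀ a ∈ m.1.1, ∀ r, r ≤ a → ¬ r ≤ q' := fun a ha r hra hrq =>
    hcon a ha r hra (hrq.trans hq')
  have hnm : q' ∉ m.1.1 := fun h => hqm q' h q' (le_refl _) (le_refl _)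
  let m' : T := ⟨(insert q' m.1.1, c'), hc'.trans m.2.1, by
    rintro a (rfl | ha)
    · exact ⟨hq'.trans hq, hD⟩
    · have h1 := m.2.2.1 a ha
      exact ⟨h1.1, hop _ h1.2 _ ⟨le_refl _, hc'⟩⟩, by
    rintro a (rfl | ha) b (rfl | hb) hab ⟨s, hsa, hsb⟩
    · exact hab rfl
    · exact hqm b hb s hsb hsa
    · exact hqm a ha s hsa hsb
    · exact m.2.2.2 a ha b hb hab ⟨s, hsa, hsb⟩⟩
  have h1 : m.1.1 ⊂ m'.1.1 := ⟨Set.subset_insert _ _, fun h => hnm (h (Set.mem_insert _ _))⟩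
  have h2 := hm m' (Or.inr ⟨h1, hc'⟩)
  exact hnm ((rsub h2).1 (Set.mem_insert _ _))

end Pool.Agent.Helper46.SP
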