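import Pool.Agent.Helper46.SP.Spec

/-!
Every real of the symmetric model is given by countable sets of conditions of `P₀`
(module `D3`).
-/

universe u

namespace Pool.Agent.Helper46.SP

open Name

theorem st_reals (hccc : ST_ccc.{u}) (hB : ST_basicEq.{u}) : ST_reals.{u} := by
  intro P₀ C G _ _ _ _ _ _ _ S hS y p c hy hyω
  classical
  have hB' := hB (P₀ × C)
  -- conditions deciding `n ∈ y`
  let D : ℕ → Set (P₀ × C) := fun n => {x | FMem (num n) y x ∨ ∀ x' ≤ x, ¬ FMem (num n) y x'}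
  have hDo : ∀ n, ∀ x ∈ D n, ∀ x' ≤ x, x' ∈ D n := by
    rintro n x (h | h) x' hx'
    · exact Or.inl (hB'.memMono _ _ _ _ h hx')
    · exact Or.inr fun z hz => h z (hz.trans hx')
  have hDd : ∀ n, ∀ x : P₀ × C, ∃ x' ≤ x, x' ∈ D n := by
    intro n x
    by_cases h : ∃ x' ≤ x, FMem (num n) y x'
    · obtain ⟨x', hx', h⟩ := h
      exact ⟨x', hx', Or.inl h⟩
    · push Not at h
      exact ⟨x, le_refl _, Or.inr h⟩
  have key : ∀ (n : ℕ) (c' : C), ∃ d ≤ c', ∃ A : Set P₀, A.Countable ∧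
      (∀ a ∈ A, a ≤ p ∧ (a, d) ∈ D n) ∧ ∀ q ≤ p, ∃ a ∈ A, ∃ r, r ≤ a ∧ r ≤ q := by
    intro n c'
    obtain ⟨d, hd, A, h1, h2, -, h3⟩ := hccc P₀ C hS.ccc hS.closed p c' (D n) (hDo n)
      (fun x _ => hDd n x)
    exact ⟨d, hd, A, h1, h2, h3⟩
  choose F hF A hAc hAD hAm using key
  let cs : ℕ → C := fun n => Nat.rec (motive := fun _ => C) c (fun n z => F n z) n
  have hcs0 : cs 0 = c := rfl
  have hcss : ∀ n, cs (n + 1) = F n (cs n) := fun n => rfl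
  have hcsd : ∀ n, cs (n + 1) ≤ cs n := fun n => by
    rw [hcss]
    exact hF n (cs n)
  obtain ⟨d, hd⟩ := hS.closed cs hcsd
  let X : ℕ → Set P₀ := fun n => {a | a ∈ A n (cs n) ∧ FMem (num n) y (a, cs (n + 1))}
  refine ⟨d, hd 0, X, fun n => (hAc n (cs n)).mono fun a ha => ha.1, ?_⟩
  rcases y with ⟨α, Ay, By⟩
  unfold Name.realName
  constructor
  · intro i q hq hqB
    have h1 : FMem (Ay i) (Name.mk α Ay By) q := hB'.elem α Ay By i q hqB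
    have h2 : FMem (Ay i) Name.omega q := hyω (Ay i) (hy.1 i) q
      (hq.trans ⟨le_refl _, hd 0⟩) h1
    obtain ⟨r, hr, m, -, hrm⟩ := h2 q (le_refl q)
    have h3 : FMem (num m.down) (Name.mk α Ay By) r :=
      hB'.memCongr _ _ _ _ r hrm (hB'.refl _ r) (hB'.memMono _ _ _ _ h1 hr)
    have hrp : r ≤ (p, d) := hr.trans hq
    obtain ⟨a, haA, s, hsa, hsr⟩ := hAm m.down (cs m.down) r.1 hrp.1
    have h4 : ((s, r.2) : P₀ × C) ≤ r := ⟨hsr, le_refl _⟩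
    have h5 : ((s, r.2) : P₀ × C) ≤ (a, cs (m.down + 1)) := ⟨hsa, le_trans hrp.2 (hd (m.down + 1))⟩
    have h6 : a ∈ X m.down := by
      refine ⟨haA, ?_⟩
      rcases (hAD m.down (cs m.down) a haA).2 with h | h
      · exact h
      · exact absurd (hB'.memMono _ _ _ _ h3 h4) (h _ h5)
    exact ⟨(s, r.2), h4.trans hr, ⟨m.down, ⟨a, h6⟩⟩, ⟨hsa, le_top⟩, hB'.mono _ _ _ _ hrm h4⟩
  · rintro ⟨n, ⟨a, haA, haX⟩⟩ q hq hqB
    have h1 : q ≤ (a, cs (n + 1)) := ⟨hqB.1, le_trans hq.2 (hd (n + 1))⟩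
    obtain ⟨r, hr, i, hri, hrE⟩ := (hB'.memMono _ _ _ _ haX h1) q (le_refl q)
    exact ⟨r, hr, i, hri, hB'.symm _ _ _ hrE⟩

end Pool.Agent.Helper46.SP
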