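import Pool.Agent.Helper54.SP.StmtsP

/-!
Fan facets of the combinatorial sign function.
-/

namespace Pool.Agent.Helper54.SP

lemma fanf_mem_apx (N m i : ℕ) : i ∈ apx N m ↔ N ≤ i ∧ i < N + m := by
  unfold apx
  rw [List.mem_map]
  constructor
  · rintro ⟨j, hj, rfl⟩
    rw [List.mem_range] at hj
    omega
  · rintro ⟨h1, h2⟩
    exact ⟨i - N, by rw [List.mem_range]; omega, by omega⟩

lemma fanf_mem_aex (N m c i : ℕ) : i ∈ aex N m c ↔ N ≤ i ∧ i < N + m ∧ i ≠ N + c := by
  unfold aex
  rw [List.mem_filter, fanf_mem_apx, decide_eq_true_iff]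
  tauto

lemma fanf_nodup_apx (N m : ℕ) : (apx N m).Nodup := by
  unfold apx
  exact (List.nodup_range).map (fun a b h => by simpa using h)

lemma fanf_nodup_aex (N m c : ℕ) : (aex N m c).Nodup := by
  unfold aex
  exact (fanf_nodup_apx N m).filter _

lemma fanf_len_apx (N m : ℕ) : (apx N m).length = m := by
  simp [apx]

/-- the common value -/
lemma fanf_val (h1 : ST_AMX) (h2 : ST_FB1) (h3 : ST_FB2) (h4 : ST_FB3)
    (m N : ℕ) (σ : List ℕ → Bool) (ρ : ℕ → ℕ → ℕ) (c o p q : ℕ)
    (hK : KeyOK N m ρ) (hc : c < m) (ho : o < N) (hp : p < N) (hq : q < N)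
    (hop : ρ c o < ρ c p) (hpq : ρ c p < ρ c q)
    (hs : ∀ x, x < N → x ≠ o → x ≠ p → x ≠ q → ρ c x < ρ c q → σ [o, p, x] = !σ [o, p, q])
    (x : ℕ) (hx : x < N + m) (hxg : x ∉ [o, p, q] ++ aex N m c) :
    chi σ ρ m (([o, p, q] ++ aex N m c) ++ [x]) =
      xor (decide ((m - 1 - c) % 2 = 1)) (σ [o, p, q]) := by
  obtain ⟨kinj, ktop, klow⟩ := hK c hc
  have hne1 : o ≠ p := by rintro rfl; omega
  have hne2 : p ≠ q := by rintro rfl; omega
  have hne3 : o ≠ q := by rintro rfl; omega
  rw [List.mem_append, not_or] at hxg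
  obtain ⟨hxs, hxa⟩ := hxg
  have hxo : x ≠ o := by rintro rfl; exact hxs (by simp)
  have hxp : x ≠ p := by rintro rfl; exact hxs (by simp)
  have hxq : x ≠ q := by rintro rfl; exact hxs (by simp)
  rw [fanf_mem_aex] at hxa
  have hxc : x < N ∨ x = N + c := by
    by_contra hcon
    rw [not_or] at hcon
    exact hxa ⟨by omega, hx, hcon.2⟩
  have hsN : ∀ i ∈ [o, p, q], i < N := by
    intro i hi
    simp only [List.mem_cons, List.not_mem_nil, or_false] at hi
    rcases hi with rfl | rfl | rfl <;> assumption
  have hsnd : ([o, p, q] : List ℕ).Nodup := by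
    simp [hne1, hne2, hne3]
  have hnd : (([o, p, q] ++ aex N m c) ++ [x]).Nodup := by
    rw [List.nodup_append, List.nodup_append]
    refine ⟨⟨hsnd, fanf_nodup_aex N m c, ?_⟩, by simp, ?_⟩
    · intro a ha b hb
      have h5 := hsN a ha
      rw [fanf_mem_aex] at hb
      omega
    · intro a ha b hb
      rw [List.mem_singleton] at hb
      subst hb
      rintro rfl
      rw [List.mem_append] at ha
      rcases ha with ha | ha
      · exact hxs ha
      · rw [fanf_mem_aex] at ha
        exact hxa ha
  rw [h2 m N σ ρ c [o, p, q] x hK hc rfl hsN (by omega) hnd]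
  congr 1
  -- the list of layer `c`
  set l : List ℕ := [o, p, q] ++ apx N c ++ [x] with hl
  have hlen : l.length = 4 + c := by
    rw [hl, List.length_append, List.length_append, fanf_len_apx]
    simp
    omega
  have hmem : ∀ i, i ∈ l ↔ i = o ∨ i = p ∨ i = q ∨ (N ≤ i ∧ i < N + c) ∨ i = x := by
    intro i
    rw [hl, List.mem_append, List.mem_append, fanf_mem_apx]
    simp only [List.mem_cons, List.not_mem_nil, or_false]
    tauto
  have hlnd : l.Nodup := by
    rw [hl, List.nodup_append, List.nodup_append]
    refine ⟨⟨hsnd, fanf_nodup_apx N c, ?_⟩, by simp, ?_⟩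
    · intro a ha b hb
      have h5 := hsN a ha
      rw [fanf_mem_apx] at hb
      omega
    · intro a ha b hb
      rw [List.mem_singleton] at hb
      subst hb
      rintro rfl
      rw [List.mem_append] at ha
      rcases ha with ha | ha
      · exact hxs ha
      · rw [fanf_mem_apx] at ha
        omega
  have hle : ∀ i ∈ l, i ≤ N + c := by
    intro i hi
    rw [hmem] at hi
    omega
  have hinj : ∀ i ∈ l, ∀ j ∈ l, ρ c i = ρ c j → i = j := by
    intro i hi j hj hij
    exact kinj i j (hle i hi) (hle j hj) hij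
  have hlne : l ≠ [] := by
    intro h
    rw [h] at hlen
    simp at hlen
    omega
  obtain ⟨-, -, huniq⟩ := h1 (ρ c) l hlne hlnd hinj
  show lexs (ρ c) (chi σ ρ c) l = σ [o, p, q]
  have hlast : (∀ j ∈ l, ρ c j ≤ ρ c x) → lexs (ρ c) (chi σ ρ c) l = σ [o, p, q] := by
    intro hmax
    have hget : l.getD (3 + c) 0 = x := by
      rw [hl, List.getD_append_right _ _ _ _ (by
        rw [List.length_append, fanf_len_apx]
        simp)]
      rw [List.length_append, fanf_len_apx]
      simp
    have ham : amax (ρ c) l = 3 + c := by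
      refine huniq (3 + c) (by omega) ?_
      rw [hget]
      exact hmax
    have herase : l.eraseIdx (3 + c) = [o, p, q] ++ apx N c := by
      rw [hl]
      rw [List.eraseIdx_append_of_length_le (by
        rw [List.length_append, fanf_len_apx]
        simp)]
      rw [List.length_append, fanf_len_apx]
      simp
    unfold lexs
    rw [ham, hlen, herase, h3 m N σ ρ c [o, p, q] hK (by omega) rfl hsN hsnd]
    have : ¬ ((3 + c + (4 + c - 1)) % 2 = 1) := by omega
    rw [decide_eq_false this]
    simp
  rcases hxc with hxN | hxc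
  · rcases lt_trichotomy (ρ c x) (ρ c q) with hlt | heq | hgt
    · -- `q` has the largest key
      have hmax : ∀ j ∈ l, ρ c j ≤ ρ c q := by
        intro j hj
        rw [hmem] at hj
        rcases hj with rfl | rfl | rfl | ⟨hj1, hj2⟩ | rfl
        · omega
        · omega
        · exact le_rfl
        · exact (klow q j hq hj1 hj2).le
        · omega
      have hget : l.getD 2 0 = q := by
        rw [hl]
        rfl
      have ham : amax (ρ c) l = 2 := by
        refine huniq 2 (by omega) ?_
        rw [hget]
        exact hmax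
      have herase : l.eraseIdx 2 = [o, p] ++ apx N c ++ [x] := by
        rw [hl]
        rfl
      have hs2 : ∀ i ∈ [o, p], i < N := by
        intro i hi
        simp only [List.mem_cons, List.not_mem_nil, or_false] at hi
        rcases hi with rfl | rfl <;> assumption
      have hnd2 : ([o, p] ++ [x] : List ℕ).Nodup := by
        simp only [List.cons_append, List.nil_append, List.nodup_cons, List.mem_cons,
          List.not_mem_nil, or_false, not_false_eq_true, List.nodup_nil, and_true]
        exact ⟨by rintro (h | h); exacts [hne1 h, hxo h.symm], fun h => hxp h.symm⟩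
      unfold lexs
      rw [ham, hlen, herase, h4 m N σ ρ c [o, p] x hK (by omega) rfl hs2 hxN hnd2]
      have h6 : σ ([o, p] ++ [x]) = !σ [o, p, q] := hs x hxN hxo hxp hxq hlt
      rw [h6]
      rcases Nat.mod_two_eq_zero_or_one c with h7 | h7
      · have h8 : (2 + (4 + c - 1)) % 2 = 1 := by omega
        have h9 : ¬ (c % 2 = 1) := by omega
        rw [decide_eq_true h8, decide_eq_false h9]
        simp
      · have h8 : ¬ (2 + (4 + c - 1)) % 2 = 1 := by omega
        rw [decide_eq_false h8, decide_eq_true h7]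
        simp
    · exact absurd (kinj x q (by omega) (by omega) heq) hxq
    · apply hlast
      intro j hj
      rw [hmem] at hj
      rcases hj with rfl | rfl | rfl | ⟨hj1, hj2⟩ | rfl
      · omega
      · omega
      · omega
      · exact (klow x j hxN hj1 hj2).le
      · exact le_rfl
  · apply hlast
    intro j hj
    rw [hmem] at hj
    by_cases hjx : j = x
    · rw [hjx]
    · rw [hxc]
      exact (ktop j (by omega)).le

theorem st_FANF (h1 : ST_AMX) (h2 : ST_FB1) (h3 : ST_FB2) (h4 : ST_FB3) : ST_FANF := by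
  intro m N σ ρ c o p q hK hc ho hp hq hop hpq hs x y hx hy hxg hyg
  rw [fanf_val h1 h2 h3 h4 m N σ ρ c o p q hK hc ho hp hq hop hpq hs x hx hxg,
    fanf_val h1 h2 h3 h4 m N σ ρ c o p q hK hc ho hp hq hop hpq hs y hy hyg]

end Pool.Agent.Helper54.SP
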