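import Pool.Agent.Helper46.SP.CoreSpec

/-!
# (A10a) the number of set names with a given small support
-/

open Cardinal Set
open scoped Pointwise

namespace Pool.Agent.Helper46.SP

namespace A10a

variable {Q : Par}

theorem al0 (ξ : Q.Lev) : ℵ₀ ≤ Q.κ ξ :=
  (Cardinal.cantor ℵ₀).le.trans (Q.cont_le ξ)

theorem κ_mono {η ξ : Q.Lev} (h : η < ξ) : Q.κ η ≤ Q.κ ξ :=
  ((Cardinal.cantor _).le.trans (Cardinal.cantor _).le).trans (Q.κ_beth η ξ h)

/-- Cohen conditions over a small set. -/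
theorem cardP (ξ : Q.Lev) (Y : Set (Idx Q)) (hY : #Y ≤ Q.κ ξ) :
    #{q : P0 Q | q.res Y = q} ≤ Q.κ ξ := by
  have h1 : #{t : Set (Idx Q × ℕ × Bool) // t ⊆ Y ×ˢ (Set.univ : Set (ℕ × Bool)) ∧ #t ≤ ℵ₀} ≤
      Q.κ ξ := by
    refine (mk_bounded_subset_le _ _).trans ?_
    refine le_of_le_of_eq (power_le_power_right (max_le ?_ (al0 ξ))) (Q.κ_omega ξ)
    rw [mk_setProd]
    calc #Y * #(univ : Set (ℕ × Bool)) ≤ Q.κ ξ * Q.κ ξ :=
          mul_le_mul' hY (mk_le_aleph0.trans (al0 ξ))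
      _ = Q.κ ξ := mul_eq_self (al0 ξ)
  refine le_trans (mk_le_of_injective (f := fun q : {q : P0 Q | q.res Y = q} =>
    (⟨{t | t.1 ∈ Y ∧ t.1.1 = none ∧ q.1.val (t.1.2, t.2.1) = some t.2.2}, ?_, ?_⟩ :
      {t : Set (Idx Q × ℕ × Bool) // t ⊆ Y ×ˢ (Set.univ : Set (ℕ × Bool)) ∧ #t ≤ ℵ₀})) ?_) h1
  · intro t ht
    exact ⟨ht.1, trivial⟩
  · refine le_aleph0_iff_set_countable.2 (Set.Finite.countable ?_)
    refine (q.1.fin.image (fun x => (((none, x.1) : Idx Q), x.2,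
      (q.1.val x).getD false))).subset ?_
    rintro ⟨⟨a, i⟩, n, b⟩ ⟨-, ha, hb⟩
    dsimp only at ha hb
    subst ha
    refine ⟨(i, n), ?_, ?_⟩
    · rw [Set.mem_ofPred_eq, hb]
      simp
    · simp [hb]
  · rintro ⟨q, hq⟩ ⟨q', hq'⟩ h
    simp only [Subtype.mk.injEq, Set.ext_iff, Set.mem_ofPred_eq] at h
    apply Subtype.ext
    apply P0.ext
    funext x
    change q.val x = q'.val x
    by_cases hx : ((none, x.1) : Idx Q) ∈ Y
    · apply Option.ext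
      intro b
      have := h ((none, x.1), x.2, b)
      simpa [hx] using this
    · have e1 : q.val x = none := by
        have : (q.res Y).val x = none := by
          simp only [P0.res, if_neg hx]
        rw [← this]
        exact congrArg (fun r => P0.val r x) hq.symm
      have e2 : q'.val x = none := by
        have : (q'.res Y).val x = none := by
          simp only [P0.res, if_neg hx]
        rw [← this]
        exact congrArg (fun r => P0.val r x) hq'.symm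
      rw [e1, e2]

/-- The number of set names over a set, from the number of names with a given support. -/
theorem cardU (S : CodeSys Q) (P : Q.Lev → Prop) (μ : Cardinal.{0}) (h0 : ℵ₀ ≤ μ)
    (hL : #Q.Lev ≤ μ) (hpow : ∀ η, P η → μ ^ Q.κ η = μ)
    (ih : ∀ η, P η → ∀ z : Set (Idx Q), #z ≤ Q.κ η →
      #{A : S.U | SN η A ∧ ∀ g : Grp Q, Fixes g z → g • A = A} ≤ μ)
    (Y : Set (Idx Q)) (hY : #Y ≤ μ) :
    #{B : S.U | P (S.lev B) ∧ SN (S.lev B) B ∧ UOver B Y} ≤ μ := by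
  have hsub : {B : S.U | P (S.lev B) ∧ SN (S.lev B) B ∧ UOver B Y} ⊆
      ⋃ η : Q.Lev, {B : S.U | P η ∧ SN η B ∧ ∃ z ⊆ Y, #z ≤ Q.κ η ∧
        ∀ g : Grp Q, Fixes g z → g • B = B} := by
    rintro B ⟨h1, h2, z, h3, h4, h5⟩
    rw [Set.mem_iUnion]
    exact ⟨S.lev B, h1, h2, z, h3, h4, h5⟩
  refine (mk_le_mk_of_subset hsub).trans ((mk_iUnion_le _).trans ?_)
  refine le_of_le_of_eq (mul_le_mul' hL (ciSup_le' fun η => ?_)) (mul_eq_self h0)
  by_cases hη : P η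
  · have hsub' : {B : S.U | P η ∧ SN η B ∧ ∃ z ⊆ Y, #z ≤ Q.κ η ∧
        ∀ g : Grp Q, Fixes g z → g • B = B} ⊆
        ⋃ z : {z : Set (Idx Q) // z ⊆ Y ∧ #z ≤ Q.κ η},
          {B : S.U | SN η B ∧ ∀ g : Grp Q, Fixes g z.1 → g • B = B} := by
      rintro B ⟨-, h2, z, h3, h4, h5⟩
      rw [Set.mem_iUnion]
      exact ⟨⟨z, h3, h4⟩, h2, h5⟩
    refine (mk_le_mk_of_subset hsub').trans ((mk_iUnion_le _).trans ?_)
    refine le_of_le_of_eq (mul_le_mul' ?_ (ciSup_le' fun z => ?_)) (mul_eq_self h0)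
    · refine (mk_bounded_subset_le _ _).trans ?_
      exact le_of_le_of_eq (power_le_power_right (max_le hY h0)) (hpow η hη)
    · exact ih η hη z.1 z.2.2
  · have : {B : S.U | P η ∧ SN η B ∧ ∃ z ⊆ Y, #z ≤ Q.κ η ∧
        ∀ g : Grp Q, Fixes g z → g • B = B} = ∅ := by
      ext B
      simp [hη]
    rw [this, mk_eq_zero]
    exact zero_le

/-- The number of triples over a set. -/
theorem cardW (S : CodeSys Q) (μ : Cardinal.{0}) (h0 : ℵ₀ ≤ μ) (U₀ : Set S.U) (hU : #U₀ ≤ μ)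
    (Y : Set (Idx Q)) (hY : #Y ≤ μ) (hR : #{v : RN Q | v.Over Y} ≤ μ) :
    #(U₀ ×ˢ ({l : Lab Q | lab l ∈ Y} ×ˢ {v : RN Q | v.Over Y}) : Set (Trip S)) ≤ μ := by
  rw [mk_setProd, mk_setProd]
  refine le_of_le_of_eq (mul_le_mul' hU (le_of_le_of_eq (mul_le_mul' ?_ hR) (mul_eq_self h0)))
    (mul_eq_self h0)
  refine (mk_le_of_injective (f := fun l : {l : Lab Q | lab l ∈ Y} => (⟨lab l.1, l.2⟩ : Y)) ?_).trans
    hY
  rintro ⟨⟨a, i⟩, h⟩ ⟨⟨a', i'⟩, h'⟩ e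
  simp only [lab, Subtype.mk.injEq, Prod.mk.injEq, Option.some.injEq] at e
  simp [e.1, e.2]

/-- Every triple of a set name is over a small set. -/
theorem cover (S : CodeSys Q) (hO : OFacts S) (hR : RNFacts Q) (hP0 : P0Facts Q) (ξ : Q.Lev)
    (x : RN Q) (q : P0 Q) (f : RC S) (hf : f ∈ CC (ξ : Stg Q)) (hfc : #f ≤ Q.κ ξ) :
    ∃ y : Set (Idx Q), #y ≤ Q.κ ξ ∧ x.Over y ∧ q.res y = q ∧
      ∀ s ∈ f, S.lev s.1 < ξ ∧ SN (S.lev s.1) s.1 ∧ UOver s.1 y ∧ lab s.2.1 ∈ y ∧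
        s.2.2.Over y := by
  obtain ⟨z1, hz1, -, hx⟩ := hR.over_univ x
  obtain ⟨z2, hz2, -, hq⟩ := hP0.fin_supp q
  have key : ∀ s : f, ∃ y : Set (Idx Q), #y ≤ Q.κ ξ ∧ S.lev s.1.1 < ξ ∧
      SN (S.lev s.1.1) s.1.1 ∧ UOver s.1.1 y ∧ lab s.1.2.1 ∈ y ∧ s.1.2.2.Over y := by
    rintro ⟨s, hs⟩
    have hn := hO.names _ f hf s hs
    have hlt : tlev s < ξ := by
      have := ((mem_CC.1 hf).2.1 s hs)
      exact WithTop.coe_lt_coe.1 this
    have hlev : S.lev s.1 = tlev s := hn.lev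
    obtain ⟨z, hz, hzg⟩ := hn.inv
    obtain ⟨z', hz', -, hv⟩ := hR.over_univ s.2.2
    refine ⟨z ∪ {lab s.2.1} ∪ z', ?_, ?_, ?_, ?_, ?_, ?_⟩
    · refine (mk_union_le _ _).trans (add_le_of_le (al0 ξ) ((mk_union_le _ _).trans
        (add_le_of_le (al0 ξ) (hz.trans (κ_mono hlt)) ?_)) ?_)
      · rw [mk_singleton]
        exact one_le_aleph0.trans (al0 ξ)
      · exact (le_aleph0_iff_set_countable.2 hz').trans (al0 ξ)
    · dsimp only
      rw [hlev]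
      exact hlt
    · dsimp only
      rw [hlev]
      exact hn
    · refine ⟨z, fun i hi => Or.inl (Or.inl hi), ?_, hzg⟩
      dsimp only
      rw [hlev]
      exact hz
    · exact Or.inl (Or.inr rfl)
    · exact hR.over_mono _ _ _ hv (fun i hi => Or.inr hi)
  choose w hw using key
  refine ⟨z1 ∪ z2 ∪ ⋃ s : f, w s, ?_, ?_, ?_, ?_⟩
  · refine (mk_union_le _ _).trans (add_le_of_le (al0 ξ) ((mk_union_le _ _).trans
        (add_le_of_le (al0 ξ) ?_ ?_)) ?_)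
    · exact (le_aleph0_iff_set_countable.2 hz1).trans (al0 ξ)
    · exact (le_aleph0_iff_set_countable.2 hz2.countable).trans (al0 ξ)
    · refine (mk_iUnion_le _).trans ?_
      exact le_of_le_of_eq (mul_le_mul' hfc (ciSup_le' fun s => (hw s).1)) (mul_eq_self (al0 ξ))
  · exact hR.over_mono _ _ _ hx (fun i hi => Or.inl (Or.inl hi))
  · exact hP0.res_eq_of _ _ _ hq (fun i hi => Or.inl (Or.inr hi))
  · intro s hs
    obtain ⟨h1, h2, h3, h4, h5, h6⟩ := hw ⟨s, hs⟩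
    have hsub : w ⟨s, hs⟩ ⊆ z1 ∪ z2 ∪ ⋃ s : f, w s :=
      fun i hi => Or.inr (Set.mem_iUnion.2 ⟨_, hi⟩)
    exact ⟨h2, h3, hO.uoverMono _ _ _ h4 hsub, hsub h5, hR.over_mono _ _ _ h6 hsub⟩

/-- A small set containing a copy of every small set, over a given small set. -/
theorem bigset (hPm : PermFacts Q) (ξ : Q.Lev) (z : Set (Idx Q)) (hz : #z ≤ Q.κ ξ) :
    ∃ Y : Set (Idx Q), #Y ≤ Q.κ ξ ∧ ∀ y : Set (Idx Q), #y ≤ Q.κ ξ →
      ∃ g : Grp Q, Fixes g z ∧ ∀ i ∈ y, g • i ∈ Y := by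
  classical
  have hinf : Infinite Q.Ω := by
    rw [infinite_iff]
    exact ((al0 ξ).trans (Q.κ_le_K ξ)).trans Q.K_lt.le
  have h1 : #(Prod.snd '' z : Set Q.Ω) < #Q.Ω :=
    (mk_image_le.trans (hz.trans (Q.κ_le_K ξ))).trans_lt Q.K_lt
  have h2 : Q.κ ξ ≤ #((Prod.snd '' z)ᶜ : Set Q.Ω) := by
    rw [mk_compl_of_infinite _ h1]
    exact (Q.κ_le_K ξ).trans Q.K_lt.le
  obtain ⟨I, hI, hIc⟩ := le_mk_iff_exists_subset.1 h2
  have hLev : #(Option Q.Lev) ≤ Q.κ ξ := by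
    rw [mk_option]
    exact add_le_of_le (al0 ξ) (Q.card_lev ξ) (one_le_aleph0.trans (al0 ξ))
  refine ⟨z ∪ (Set.univ ×ˢ I), ?_, ?_⟩
  · refine (mk_union_le _ _).trans (add_le_of_le (al0 ξ) hz ?_)
    rw [mk_setProd, mk_univ, hIc]
    exact le_of_le_of_eq (mul_le_mul' hLev le_rfl) (mul_eq_self (al0 ξ))
  · intro y hy
    have h3 : #(Prod.snd '' y : Set Q.Ω) ≤ #I := by
      rw [hIc]
      exact mk_image_le.trans hy
    obtain ⟨e⟩ := h3
    let f : Idx Q → Idx Q := fun i =>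
      if i ∈ z then i else if h : i.2 ∈ Prod.snd '' y then (i.1, (e ⟨i.2, h⟩).1) else i
    have hf1 : ∀ i ∈ z, f i = i := fun i hi => if_pos hi
    have hf2 : ∀ i (h : i ∈ y), i ∉ z → f i = (i.1, (e ⟨i.2, i, h, rfl⟩).1) := by
      intro i h hi
      change (if i ∈ z then i else if h : i.2 ∈ Prod.snd '' y then (i.1, (e ⟨i.2, h⟩).1) else i) = _
      rw [if_neg hi, dif_pos ⟨i, h, rfl⟩]
    have hD : #(z ∪ y : Set (Idx Q)) ≤ Q.K := by
      refine (mk_union_le _ _).trans (add_le_of_le ((al0 ξ).trans (Q.κ_le_K ξ)) ?_ ?_)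
      · exact hz.trans (Q.κ_le_K ξ)
      · exact hy.trans (Q.κ_le_K ξ)
    have hlev : ∀ i ∈ z ∪ y, (f i).1 = i.1 := by
      intro i hi
      by_cases hz' : i ∈ z
      · rw [hf1 i hz']
      · rw [hf2 i (hi.resolve_left hz') hz']
    have hinj : Set.InjOn f (z ∪ y) := by
      intro i hi i' hi' hii
      by_cases h1 : i ∈ z <;> by_cases h2 : i' ∈ z
      · rwa [hf1 i h1, hf1 i' h2] at hii
      · exfalso
        rw [hf1 i h1, hf2 i' (hi'.resolve_left h2) h2] at hii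
        have : i.2 ∈ I := by
          rw [hii]
          exact (e _).2
        exact hI this ⟨i, h1, rfl⟩
      · exfalso
        rw [hf1 i' h2, hf2 i (hi.resolve_left h1) h1] at hii
        have : i'.2 ∈ I := by
          rw [← hii]
          exact (e _).2
        exact hI this ⟨i', h2, rfl⟩
      · rw [hf2 i (hi.resolve_left h1) h1, hf2 i' (hi'.resolve_left h2) h2, Prod.mk.injEq] at hii
        have := congrArg Subtype.val (e.injective (Subtype.ext hii.2))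
        exact Prod.ext hii.1 this
    obtain ⟨g, hg⟩ := hPm.ext (z ∪ y) f hD hlev hinj
    refine ⟨g, fun i hi => (hg i (Or.inl hi)).trans (hf1 i hi), fun i hi => ?_⟩
    rw [hg i (Or.inr hi)]
    by_cases hz' : i ∈ z
    · rw [hf1 i hz']
      exact Or.inl hz'
    · rw [hf2 i hi hz']
      exact Or.inr ⟨trivial, (e _).2⟩

theorem step (S : CodeSys Q) (hO : OFacts S) (hG : GFacts S) (hR : RNFacts Q) (hP0 : P0Facts Q)
    (hPm : PermFacts Q) (ξ : Q.Lev)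
    (ih : ∀ η < ξ, ∀ z : Set (Idx Q), #z ≤ Q.κ η →
      #{A : S.U // SN η A ∧ ∀ g : Grp Q, Fixes g z → g • A = A} ≤
        (2 : Cardinal.{0}) ^ ((2 : Cardinal.{0}) ^ Q.κ η))
    (z : Set (Idx Q)) (hz : #z ≤ Q.κ ξ) :
    #{A : S.U // SN ξ A ∧ ∀ g : Grp Q, Fixes g z → g • A = A} ≤
        (2 : Cardinal.{0}) ^ ((2 : Cardinal.{0}) ^ Q.κ ξ) := by
  obtain ⟨Y, hY, hYg⟩ := bigset hPm ξ z hz
  set U₀ : Set S.U := {B : S.U | S.lev B < ξ ∧ SN (S.lev B) B ∧ UOver B Y} with hU₀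
  have hU : #U₀ ≤ Q.κ ξ := by
    refine cardU S (fun η => η < ξ) (Q.κ ξ) (al0 ξ) (Q.card_lev ξ)
      (fun η hη => Q.κ_pow η ξ hη) (fun η hη z hz => ?_) Y hY
    exact (ih η hη z hz).trans (Q.κ_beth η ξ hη)
  have hRY : #{v : RN Q | v.Over Y} ≤ Q.κ ξ := hR.cardκ ξ Y hY
  set W : Set (Trip S) := U₀ ×ˢ ({l : Lab Q | lab l ∈ Y} ×ˢ {v : RN Q | v.Over Y}) with hW
  have hWc : #W ≤ Q.κ ξ := cardW S (Q.κ ξ) (al0 ξ) U₀ hU Y hY hRY
  set T : Set (RN Q × P0 Q × RC S) :=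
    {v : RN Q | v.Over Y} ×ˢ ({q : P0 Q | q.res Y = q} ×ˢ (𝒫 W)) with hT
  have hinf2 : ℵ₀ ≤ (2 : Cardinal.{0}) ^ Q.κ ξ := (al0 ξ).trans (Cardinal.cantor _).le
  have hTc : #T ≤ (2 : Cardinal.{0}) ^ Q.κ ξ := by
    rw [hT, mk_setProd, mk_setProd, mk_powerset]
    refine le_of_le_of_eq (mul_le_mul' (hRY.trans (Cardinal.cantor _).le) (le_of_le_of_eq
      (mul_le_mul' ((cardP ξ Y hY).trans (Cardinal.cantor _).le)
        (power_le_power_left two_ne_zero hWc)) (mul_eq_self hinf2))) (mul_eq_self hinf2)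
  have hPc : #(𝒫 T) ≤ (2 : Cardinal.{0}) ^ ((2 : Cardinal.{0}) ^ Q.κ ξ) := by
    rw [mk_powerset]
    exact power_le_power_left two_ne_zero hTc
  refine le_trans (mk_le_of_injective (f := fun A : {A : S.U // SN ξ A ∧ ∀ g : Grp Q,
    Fixes g z → g • A = A} => (⟨S.G A.1 ∩ T, Set.mem_powerset Set.inter_subset_right⟩ : 𝒫 T)) ?_) hPc
  have key : ∀ A B : S.U, SN ξ A → (∀ g : Grp Q, Fixes g z → g • A = A) →
      (∀ g : Grp Q, Fixes g z → g • B = B) → S.G A ∩ T = S.G B ∩ T → S.G A ⊆ S.G B := by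
    intro A B hA hAz hBz hAB t ht
    obtain ⟨hfC, hfc⟩ := hA.small t ht
    obtain ⟨y, hy, hy1, hy2, hy3⟩ := cover S hO hR hP0 ξ t.1 t.2.1 t.2.2 hfC hfc
    obtain ⟨g, hgz, hgy⟩ := hYg y hy
    have hgyY : g • y ⊆ Y := by
      rintro _ ⟨i, hi, rfl⟩
      exact hgy i hi
    have h1 : g • t ∈ S.G A := by
      have : g • t ∈ g • S.G A := Set.smul_mem_smul_set ht
      rwa [← S.G_smul, hAz g hgz] at this
    have h2 : g • t ∈ T := by
      refine ⟨?_, ?_, ?_⟩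
      · exact hR.over_mono _ _ _ (hR.over_smul g _ _ hy1) hgyY
      · refine hP0.res_eq_of (g • t.2.1) (g • y) Y ?_ hgyY
        rw [hP0.smul_res, hy2]
      · rintro _ ⟨s, hs, rfl⟩
        obtain ⟨a1, a2, a3, a4, a5⟩ := hy3 s hs
        refine ⟨⟨?_, ?_, ?_⟩, ?_, ?_⟩
        · change S.lev (g • s.1) < ξ
          rw [S.lev_smul]
          exact a1
        · change SN (S.lev (g • s.1)) (g • s.1)
          rw [S.lev_smul]
          exact hG.sn _ g _ a2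
        · exact hO.uoverMono _ _ _ (hO.uoverSmul g _ _ a3) hgyY
        · have : g • lab s.2.1 ∈ Y := hgy _ a4
          exact this
        · exact hR.over_mono _ _ _ (hR.over_smul g _ _ a5) hgyY
    have h3 : g • t ∈ S.G B := by
      have : g • t ∈ S.G B ∩ T := by
        rw [← hAB]
        exact ⟨h1, h2⟩
      exact this.1
    rw [← hBz g hgz, S.G_smul] at h3
    exact (Set.smul_mem_smul_set_iff).1 h3
  rintro ⟨A, hA, hAz⟩ ⟨B, hB, hBz⟩ h
  replace h := congrArg Subtype.val h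
  dsimp only at h
  apply Subtype.ext
  apply S.ext A B (hA.lev.trans hB.lev.symm)
  exact Set.Subset.antisymm (key A B hA hAz hBz h) (key B A hB hBz hAz h.symm)

end A10a

/-- (A10a) -/
theorem st_count0 (hO : ST_ofacts) (hG : ST_gfacts) (hR : ST_RN) (hP0 : ST_P0)
    (hPm : ST_perm) : ST_count0 := by
  intro Q S ξ
  induction ξ using WellFoundedLT.induction with
  | ind ξ ih =>
    intro z hz
    exact A10a.step S (hO Q S) (hG Q S) (hR Q) (hP0 Q) (hPm Q) ξ ih z hz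

end Pool.Agent.Helper46.SP
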